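import Pool.Agent.Helper64.HG.Stmts

/-! Module FAN for MP_866009_co: an induced path and a hub adjacent to an arbitrary set of its
vertices form a circle graph. The `i`-th vertex of the path is the chord joining the points
`2 i` and `2 i + 3` of a strip; it changes the side of the strip exactly if it is adjacent to the
hub. -/

set_option autoImplicit false

namespace Pool.Agent.Helper64.HG

open Classical in
/-- side of the strip before the `i`-th vertex -/
noncomputable def fan_s (N : ℕ → Prop) : ℕ → ℤ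
  | 0 => 0
  | i + 1 => if N i then 1 - fan_s N i else fan_s N i

/-- left end of the `i`-th interval -/
noncomputable def fan_l (n : ℕ) (s : ℕ → ℤ) (i : ℕ) : ℤ :=
  if s i = 0 then 2 * i else if s (i + 1) = 0 then 2 * i + 3 else 4 * n + 20 - (2 * i + 3)

/-- right end of the `i`-th interval -/
noncomputable def fan_r (n : ℕ) (s : ℕ → ℤ) (i : ℕ) : ℤ :=
  if s i = 0 then (if s (i + 1) = 0 then 2 * i + 3 else 4 * n + 20 - (2 * i + 3))
  else 4 * n + 20 - 2 * i

theorem fan_s01 (N : ℕ → Prop) (i : ℕ) : fan_s N i = 0 ∨ fan_s N i = 1 := by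
  induction i with
  | zero => exact Or.inl rfl
  | succ i ih =>
    rw [fan_s]
    split_ifs <;> omega

theorem fan_sN (N : ℕ → Prop) (i : ℕ) : fan_s N i ≠ fan_s N (i + 1) ↔ N i := by
  have h := fan_s01 N i
  rw [fan_s]
  split_ifs with h1
  · simp only [h1, iff_true]
    omega
  · simp [h1]

theorem fan_cases (n : ℕ) (s : ℕ → ℤ) (hs : ∀ i, s i = 0 ∨ s i = 1) (i : ℕ) :
    (s i = 0 ∧ s (i + 1) = 0 ∧ fan_l n s i = 2 * i ∧ fan_r n s i = 2 * i + 3) ∨
    (s i = 0 ∧ s (i + 1) = 1 ∧ fan_l n s i = 2 * i ∧ fan_r n s i = 4 * n + 20 - (2 * i + 3)) ∨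
    (s i = 1 ∧ s (i + 1) = 0 ∧ fan_l n s i = 2 * i + 3 ∧ fan_r n s i = 4 * n + 20 - 2 * i) ∨
    (s i = 1 ∧ s (i + 1) = 1 ∧ fan_l n s i = 4 * n + 20 - (2 * i + 3) ∧
      fan_r n s i = 4 * n + 20 - 2 * i) := by
  unfold fan_l fan_r
  rcases hs i with h1 | h1 <;> rcases hs (i + 1) with h2 | h2 <;> simp [h1, h2]

theorem fan_one (n : ℕ) (s : ℕ → ℤ) (hs : ∀ i, s i = 0 ∨ s i = 1) (i : ℕ) (hi : i < n) :
    fan_l n s i < fan_r n s i ∧ -1 < fan_l n s i ∧ fan_l n s i ≠ 2 * n + 8 ∧
    fan_r n s i ≠ 2 * n + 8 ∧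
    ((fan_l n s i < 2 * n + 8 ∧ 2 * n + 8 < fan_r n s i) ↔ s i ≠ s (i + 1)) := by
  rcases fan_cases n s hs i with h | h | h | h <;> omega

theorem fan_two (n : ℕ) (s : ℕ → ℤ) (hs : ∀ i, s i = 0 ∨ s i = 1) (i j : ℕ) (hi : i < n)
    (hj : j < n) (hij : i ≠ j) :
    fan_l n s i ≠ fan_l n s j ∧ fan_r n s i ≠ fan_r n s j ∧ fan_l n s i ≠ fan_r n s j := by
  rcases fan_cases n s hs i with h | h | h | h <;>
  rcases fan_cases n s hs j with h' | h' | h' | h' <;> omega

theorem fan_adj (n : ℕ) (s : ℕ → ℤ) (hs : ∀ i, s i = 0 ∨ s i = 1) (i j : ℕ) (hi : i < n)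
    (hj : j < n) (hij : i < j) : Ovl (fan_l n s) (fan_r n s) i j ↔ j = i + 1 := by
  unfold Ovl
  by_cases h1 : j = i + 1
  · subst h1
    simp only [iff_true]
    rcases fan_cases n s hs i with h | h | h | h <;>
    rcases fan_cases n s hs (i + 1) with h' | h' | h' | h' <;> push_cast at * <;> omega
  · simp only [h1, iff_false]
    rcases fan_cases n s hs i with h | h | h | h <;>
    rcases fan_cases n s hs j with h' | h' | h' | h' <;> omega

theorem fan_sym {α V : Type} [LinearOrder α] (l r : V → α) (u v : V) :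
    Ovl l r u v ↔ Ovl l r v u := by
  unfold Ovl
  exact or_comm

theorem fan_cast {V : Type} (G : SimpleGraph V) (l r : V → ℤ) (h : Model G l r) :
    Circ G := by
  refine ⟨fun x => (l x : ℝ), fun x => (r x : ℝ), ?_, ?_, ?_, ?_, ?_⟩
  · intro v
    exact_mod_cast h.lt v
  · intro a b hab
    exact h.injl (Int.cast_injective (α := ℝ) hab)
  · intro a b hab
    exact h.injr (Int.cast_injective (α := ℝ) hab)
  · intro u v huv
    exact h.ne u v (by exact_mod_cast huv)
  · intro u v
    rw [h.adj u v]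
    unfold Ovl
    simp only [Int.cast_lt]

theorem st_FAN : ST_FAN := by
  classical
  intro V _ G h L _ hL hhL hcov
  obtain ⟨hnd, hadj⟩ := hL
  let N : ℕ → Prop := fun i => ∃ hi : i < L.length, G.Adj h L[i]
  let s : ℕ → ℤ := fan_s N
  have hs : ∀ i, s i = 0 ∨ s i = 1 := fan_s01 N
  let l : V → ℤ := fun x => if x = h then -1 else fan_l L.length s (L.idxOf x)
  let r : V → ℤ := fun x => if x = h then 2 * L.length + 8 else fan_r L.length s (L.idxOf x)
  have hc : ∀ x, x = h ∨ ∃ i, ∃ hi : i < L.length, x = L[i] := by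
    intro x
    rcases hcov x with hx | hx
    · exact Or.inl hx
    · obtain ⟨i, hi, hix⟩ := List.getElem_of_mem hx
      exact Or.inr ⟨i, hi, hix.symm⟩
  have hlh : l h = -1 := if_pos rfl
  have hrh : r h = 2 * L.length + 8 := if_pos rfl
  have hne : ∀ i, ∀ hi : i < L.length, L[i] ≠ h := by
    intro i hi h1
    exact hhL (h1 ▸ List.getElem_mem hi)
  have hli : ∀ i, ∀ hi : i < L.length, l L[i] = fan_l L.length s i := by
    intro i hi
    have h1 : L.idxOf L[i] = i := hnd.idxOf_getElem i hi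
    change (if L[i] = h then (-1 : ℤ) else fan_l L.length s (L.idxOf L[i])) = _
    rw [if_neg (hne i hi), h1]
  have hri : ∀ i, ∀ hi : i < L.length, r L[i] = fan_r L.length s i := by
    intro i hi
    have h1 : L.idxOf L[i] = i := hnd.idxOf_getElem i hi
    change (if L[i] = h then (2 * L.length + 8 : ℤ) else fan_r L.length s (L.idxOf L[i])) = _
    rw [if_neg (hne i hi), h1]
  have hN : ∀ i, ∀ hi : i < L.length, (G.Adj h L[i] ↔ s i ≠ s (i + 1)) := by
    intro i hi
    rw [show (s i ≠ s (i + 1) ↔ N i) from fan_sN N i]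
    exact ⟨fun h1 => ⟨hi, h1⟩, fun ⟨_, h1⟩ => h1⟩
  have hhi : ∀ i, ∀ hi : i < L.length, (G.Adj h L[i] ↔ Ovl l r h L[i]) := by
    intro i hi
    obtain ⟨h1, h2, h3, h4, h5⟩ := fan_one L.length s hs i hi
    rw [hN i hi, ← h5]
    unfold Ovl
    rw [hlh, hrh, hli i hi, hri i hi]
    omega
  have hij : ∀ i j, ∀ hi : i < L.length, ∀ hj : j < L.length, i < j →
      (G.Adj L[i] L[j] ↔ Ovl l r L[i] L[j]) := by
    intro i j hi hj hlt
    rw [hadj i j hi hj hlt, ← fan_adj L.length s hs i j hi hj hlt]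
    unfold Ovl
    rw [hli i hi, hri i hi, hli j hj, hri j hj]
  refine fan_cast G l r ⟨?_, ?_, ?_, ?_, ?_⟩
  · intro v
    rcases hc v with rfl | ⟨i, hi, rfl⟩
    · rw [hlh, hrh]
      omega
    · rw [hli i hi, hri i hi]
      exact (fan_one L.length s hs i hi).1
  · intro u v huv
    rcases hc u with hu | ⟨i, hi, hu⟩ <;> rcases hc v with hv | ⟨j, hj, hv⟩
    · rw [hu, hv]
    · exfalso
      rw [hu, hv, hlh, hli j hj] at huv
      have := (fan_one L.length s hs j hj).2.1
      omega
    · exfalso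
      rw [hu, hv, hlh, hli i hi] at huv
      have := (fan_one L.length s hs i hi).2.1
      omega
    · rw [hu, hv, hli i hi, hli j hj] at huv
      have h1 : i = j := by
        by_contra hne'
        exact (fan_two L.length s hs i j hi hj hne').1 huv
      subst h1
      rw [hu, hv]
  · intro u v huv
    rcases hc u with hu | ⟨i, hi, hu⟩ <;> rcases hc v with hv | ⟨j, hj, hv⟩
    · rw [hu, hv]
    · exfalso
      rw [hu, hv, hrh, hri j hj] at huv
      exact (fan_one L.length s hs j hj).2.2.2.1 huv.symm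
    · exfalso
      rw [hu, hv, hrh, hri i hi] at huv
      exact (fan_one L.length s hs i hi).2.2.2.1 huv
    · rw [hu, hv, hri i hi, hri j hj] at huv
      have h1 : i = j := by
        by_contra hne'
        exact (fan_two L.length s hs i j hi hj hne').2.1 huv
      subst h1
      rw [hu, hv]
  · intro u v huv
    rcases hc u with hu | ⟨i, hi, hu⟩ <;> rcases hc v with hv | ⟨j, hj, hv⟩
    · rw [hu, hv, hlh, hrh] at huv
      omega
    · rw [hu, hv, hlh, hri j hj] at huv
      have h1 := (fan_one L.length s hs j hj).1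
      have h2 := (fan_one L.length s hs j hj).2.1
      omega
    · rw [hu, hv, hrh, hli i hi] at huv
      exact (fan_one L.length s hs i hi).2.2.1 huv
    · rw [hu, hv, hli i hi, hri j hj] at huv
      by_cases h1 : i = j
      · subst h1
        have := (fan_one L.length s hs i hi).1
        omega
      · exact (fan_two L.length s hs i j hi hj h1).2.2 huv
  · intro u v
    rcases hc u with hu | ⟨i, hi, hu⟩ <;> rcases hc v with hv | ⟨j, hj, hv⟩
    · rw [hu, hv]
      unfold Ovl
      simp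
    · rw [hu, hv]
      exact hhi j hj
    · rw [hu, hv, G.adj_comm, fan_sym]
      exact hhi i hi
    · rw [hu, hv]
      rcases lt_trichotomy i j with h1 | h1 | h1
      · exact hij i j hi hj h1
      · subst h1
        unfold Ovl
        simp
      · rw [G.adj_comm, fan_sym]
        exact hij j i hj hi h1

end Pool.Agent.Helper64.HG
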